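import Pool.Agent.TH333.CY.Final
set_option autoImplicit false

/-!
The double covers `z + κ + 1/z = λ ∏_e L_e` are smooth at all complex points for large `λ`.
-/

namespace Pool.Agent.Y775.DN

open Pool.Agent.TH826.GA

open Pool.Agent.TH826.DC (dPhi)

open Pool.Agent.TH333.CY

variable {K : Type*} [Field K] {d m : ℕ} {lam : K} {κ : Fin (0 + 1) → K}
  {c : Fin (m + 1) → Fin (d + 1) → K} {a : Fin (m + 1) → K}

theorem exists_smooth (σ : K →+* ℂ)
    (hdet : ∀ T : Fin (d + 1) → Fin (m + 1), Function.Injective T → (cm c T).det ≠ 0)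
    (hgen : ∀ S : Fin (d + 2) → Fin (m + 1), Function.Injective S → ∀ x : Fin (d + 1) → K,
      ∃ i, ∑ j, c (S i) j * x j ≠ a (S i)) (hm : d + 1 ≤ m) (hκ : ∀ j, κ j ^ 2 ≠ 4) :
    ∃ C : ℝ, ∀ lam : K, C ≤ ‖σ lam‖ → ∀ p : Fin (0 + 1) ⊕ Fin (d + 1) → ℂ,
      MvPolynomial.eval₂ σ p (ceqn lam κ c a) = 0 →
      ∃ i, MvPolynomial.eval₂ σ p (MvPolynomial.pderiv i (ceqn lam κ c a)) ≠ 0 := by
  obtain ⟨C, hC⟩ := Pool.Agent.TH333.CY.exists_smooth (s := 0) σ hdet hgen hm hκ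
  refine ⟨C, fun lam hlam p hp => ?_⟩
  have hev := hp
  rw [eval_ceqn] at hev
  have hz : ∀ j, p (Sum.inl j) ≠ 0 := by
    intro j h0
    obtain rfl : j = 0 := by
      have h1 := j.2
      exact Fin.ext (by simpa using h1)
    rw [Fin.prod_univ_one, Fin.prod_univ_one] at hev
    rw [show p (Sum.inl 0) = 0 from h0] at hev
    norm_num at hev
  by_cases h2 : ∀ e e', e ≠ e' → lc σ c a (fun j => p (Sum.inr j)) e = 0 →
      lc σ c a (fun j => p (Sum.inr j)) e' ≠ 0
  · exact hC lam hlam p hz h2 hp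
  · push Not at h2
    obtain ⟨e, e', -, he, -⟩ := h2
    refine ⟨Sum.inl 0, fun h0 => ?_⟩
    have hF : ∏ e, lc σ c a (fun j => p (Sum.inr j)) e = 0 :=
      Finset.prod_eq_zero (Finset.mem_univ e) he
    rw [hF, mul_zero, zero_mul, sub_zero, Fin.prod_univ_one] at hev
    have he1 : (Finset.univ.erase (0 : Fin (0 + 1))) = ∅ := by decide
    rw [pderiv_inl_ceqn, he1, Finset.prod_empty, Finset.prod_empty, mul_one, mul_one,
      MvPolynomial.eval₂_sub, eval_cPhi, hF, mul_zero, sub_zero, MvPolynomial.eval₂_add,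
      MvPolynomial.eval₂_mul, MvPolynomial.eval₂_X, MvPolynomial.eval₂_C] at h0
    have h3 : MvPolynomial.eval₂ σ p (2 : MvPolynomial (Fin (0 + 1) ⊕ Fin (d + 1)) K) = 2 := by
      have := MvPolynomial.eval₂_natCast (f := σ) (g := p) 2
      simp
    rw [h3] at h0
    apply hκ 0
    apply σ.injective
    rw [map_pow, map_ofNat]
    linear_combination (σ (κ 0) + 2 * p (Sum.inl 0)) * h0 - 4 * hev

end Pool.Agent.Y775.DN
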